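import Mathlib
import Pool.Agent.LR3.FIN

namespace Pool.Agent.Results.MP_03e4a4_nt.AllLargeN

/-- **Main result.** There is `n₀` such that for all `n ≥ n₀` and all sets `V = {v_1 < ... < v_n}`
of positive integers with `v_n ≤ 2 n` there is a real `t` such that `t v_i` has distance at least
`1 / (n + 1)` from every integer, for all `i`. -/
theorem result : ∃ n0 : ℕ, ∀ n : ℕ, n0 ≤ n → ∀ v : Fin n → ℕ,
    StrictMono v → (∀ i, 0 < v i) → (∀ i, v i ≤ 2 * n) →
    ∃ t : ℝ, ∀ i, ∀ k : ℤ, (1 : ℝ) / ((n : ℝ) + 1) ≤ |t * (v i : ℝ) - (k : ℝ)| := by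
  obtain ⟨n0, H⟩ := Pool.Agent.LR3.FIN
  refine ⟨n0, ?_⟩
  intro n hn v hv hpos hle
  by_contra hcon
  push Not at hcon
  refine H n hn (Finset.univ.image v) ?_ ?_ ?_
  · intro x hx
    obtain ⟨i, -, rfl⟩ := Finset.mem_image.1 hx
    exact ⟨hpos i, hle i⟩
  · rw [Finset.card_image_of_injective _ hv.injective]
    simp
  · intro t
    obtain ⟨i, k, hik⟩ := hcon t
    exact ⟨v i, Finset.mem_image.2 ⟨i, Finset.mem_univ _, rfl⟩, k, hik⟩

end Pool.Agent.Results.MP_03e4a4_nt.AllLargeN
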