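import Mathlib

namespace Pool.Agent.Results.MP_03e4a4_nt.HalfNonUnits

open Finset

/-- A rational time `a / m` keeps the speed `x` at distance at least `c / m` from the integers as
soon as `a x` is at distance at least `c` from every multiple of `m`. -/
lemma far_of_residue {n m : ℕ} (hm : 0 < m) (a x : ℤ) (c : ℕ) (hc : m ≤ c * (n + 1))
    (h : ∀ k : ℤ, (c : ℤ) ≤ |a * x - k * m|) (k : ℤ) :
    (1 : ℝ) / ((n : ℝ) + 1) ≤ |(a : ℝ) / m * (x : ℝ) - (k : ℝ)| := by
  have hm' : (0 : ℝ) < m := by exact_mod_cast hm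
  have h1 : (a : ℝ) / m * (x : ℝ) - (k : ℝ) = ((a * x - k * m : ℤ) : ℝ) / m := by
    push_cast
    field_simp
  rw [h1, abs_div, abs_of_pos hm', div_le_div_iff₀ (by positivity) hm', one_mul]
  have h2 : ((c : ℤ) : ℝ) ≤ |((a * x - k * m : ℤ) : ℝ)| := by
    rw [← Int.cast_abs]
    exact_mod_cast h k
  have h3 : (m : ℝ) ≤ c * ((n : ℝ) + 1) := by exact_mod_cast hc
  calc (m : ℝ) ≤ c * ((n : ℝ) + 1) := h3
    _ ≤ |((a * x - k * m : ℤ) : ℝ)| * ((n : ℝ) + 1) := by
        apply mul_le_mul_of_nonneg_right _ (by positivity)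
        exact_mod_cast h2

/-- If `a x` is not congruent to an integer of absolute value less than `c` then it is at distance
at least `c` from the multiples of `m`. -/
lemma far_of_not_modEq {m : ℕ} (y : ℤ) (c : ℕ) (h : ∀ r : ℤ, |r| < c → ¬ (m : ℤ) ∣ y - r) (k : ℤ) :
    (c : ℤ) ≤ |y - k * m| := by
  by_contra hlt
  push Not at hlt
  exact h (y - k * m) hlt ⟨k, by ring⟩

/-- If no time works, then every rational time `a / m` is blocked by a speed `v i` with
`a (v i) ≡ r` modulo `m` for some integer `|r| < c`, where `m ≤ c (n + 1)`. -/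
lemma blocked {n : ℕ} {v : Fin n → ℕ}
    (hcon : ∀ t : ℝ, ∃ i, ∃ k : ℤ, |t * (v i : ℝ) - (k : ℝ)| < (1 : ℝ) / ((n : ℝ) + 1))
    {m : ℕ} (hm : 0 < m) (a : ℤ) (c : ℕ) (hc : m ≤ c * (n + 1)) :
    ∃ i, ∃ r : ℤ, |r| < c ∧ (m : ℤ) ∣ a * (v i : ℤ) - r := by
  obtain ⟨i, k, hik⟩ := hcon ((a : ℝ) / m)
  refine ⟨i, ?_⟩
  by_contra hno
  push Not at hno
  have h1 := far_of_residue hm a (v i : ℤ) c hc (far_of_not_modEq _ c hno) k
  push_cast at h1
  exact absurd hik (not_lt.mpr h1)

lemma abs_lt_two {r : ℤ} (h : |r| < (2 : ℕ)) : r = 0 ∨ r = 1 ∨ r = -1 := by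
  rw [abs_lt] at h
  push_cast at h
  omega

/-- **Main result.** Let `V` be a set of `n` speeds in `[1, 2 n]` which contains at least half of
the integers of `[1, 2 n]` that are not coprime to `2 n + 1`. Then the lonely runner conjecture holds
for `V`. -/
theorem result (n : ℕ) (v : Fin n → ℕ) (hv : StrictMono v) (hpos : ∀ i, 0 < v i)
    (hle : ∀ i, v i ≤ 2 * n)
    (hhalf : 2 * n - Nat.totient (2 * n + 1) ≤
      2 * (Finset.univ.filter fun i => ¬ Nat.Coprime (v i) (2 * n + 1)).card) :
    ∃ t : ℝ, ∀ i, ∀ k : ℤ, (1 : ℝ) / ((n : ℝ) + 1) ≤ |t * (v i : ℝ) - (k : ℝ)| := by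
  by_contra hcon
  push Not at hcon
  rcases Nat.eq_zero_or_pos n with hn | hn
  · subst hn
    obtain ⟨i, -⟩ := hcon 0
    exact i.elim0
  -- the speed 1
  have h1 : ∃ i, v i = 1 := by
    obtain ⟨i, r, hr, hd⟩ := blocked hcon (m := 2 * n + 2) (by omega) 1 2 (by omega)
    refine ⟨i, ?_⟩
    have hp := hpos i
    have hl := hle i
    obtain ⟨k, hk⟩ := hd
    have hk' : (v i : ℤ) - r = (2 * n + 2) * k := by push_cast at hk; linarith
    rcases abs_lt_two hr with h | h | h
    · have : k = 0 := by
        by_contra hk0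
        rcases lt_or_gt_of_ne hk0 with h' | h'
        · nlinarith [(by exact_mod_cast hp : (0 : ℤ) < v i)]
        · nlinarith [(by exact_mod_cast hl : (v i : ℤ) ≤ 2 * n)]
      subst this
      simp at hk'
      omega
    · have : k = 0 := by
        by_contra hk0
        rcases lt_or_gt_of_ne hk0 with h' | h'
        · nlinarith [(by exact_mod_cast hp : (0 : ℤ) < v i)]
        · nlinarith [(by exact_mod_cast hl : (v i : ℤ) ≤ 2 * n)]
      subst this
      simp at hk'
      omega
    · exfalso
      have : k = 0 := by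
        by_contra hk0
        rcases lt_or_gt_of_ne hk0 with h' | h'
        · nlinarith [(by exact_mod_cast hp : (0 : ℤ) < v i)]
        · nlinarith [(by exact_mod_cast hl : (v i : ℤ) ≤ 2 * n)]
      subst this
      simp at hk'
      omega
  -- the speed n + 1
  have h2 : ∃ i, v i = n + 1 := by
    obtain ⟨i, r, hr, hd⟩ := blocked hcon (m := n + 1) (by omega) 1 1 (by omega)
    refine ⟨i, ?_⟩
    have hr0 : r = 0 := by
      rw [abs_lt] at hr
      push_cast at hr
      omega
    subst hr0
    rw [one_mul, sub_zero] at hd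
    have hd' : n + 1 ∣ v i := by exact_mod_cast hd
    obtain ⟨k, hk⟩ := hd'
    have hp := hpos i
    have hl := hle i
    have : k = 1 := by
      rcases Nat.lt_or_ge k 1 with h | h
      · interval_cases k
        omega
      · rcases Nat.lt_or_ge k 2 with h' | h'
        · omega
        · nlinarith
    subst this
    omega
  -- the speed n or 2 n
  have h3 : (∃ i, v i = n) ∨ (∃ i, v i = 2 * n) := by
    obtain ⟨i, r, hr, hd⟩ := blocked hcon (m := n) hn 1 1 (by omega)
    have hr0 : r = 0 := by
      rw [abs_lt] at hr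
      push_cast at hr
      omega
    subst hr0
    rw [one_mul, sub_zero] at hd
    have hd' : n ∣ v i := by exact_mod_cast hd
    obtain ⟨k, hk⟩ := hd'
    have hp := hpos i
    have hl := hle i
    have hk0 : k ≠ 0 := by
      rintro rfl
      omega
    have hk2 : k ≤ 2 := by
      by_contra h
      push Not at h
      nlinarith
    have : k = 1 ∨ k = 2 := by omega
    rcases this with rfl | rfl
    · left
      exact ⟨i, by omega⟩
    · right
      exact ⟨i, by omega⟩
  -- the pairs x, 2 n + 1 - x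
  have h4 : ∀ x, 1 ≤ x → x ≤ 2 * n → Nat.Coprime x (2 * n + 1) →
      (∃ i, v i = x) ∨ (∃ i, v i = 2 * n + 1 - x) := by
    intro x hx1 hx2 hcop
    have hcop' : IsCoprime (x : ℤ) ((2 * n + 1 : ℕ) : ℤ) := Nat.isCoprime_iff_coprime.mpr hcop
    obtain ⟨a, b, hab⟩ := hcop'
    obtain ⟨i, r, hr, hd⟩ := blocked hcon (m := 2 * n + 1) (by omega) a 2 (by omega)
    have hp := hpos i
    have hl := hle i
    have hd2 : ((2 * n + 1 : ℕ) : ℤ) ∣ (v i : ℤ) - r * x := by
      have e : (v i : ℤ) - r * x = x * (a * (v i : ℤ) - r) + b * (v i : ℤ) * ((2 * n + 1 : ℕ) : ℤ) := by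
        linear_combination (-(v i : ℤ)) * hab
      rw [e]
      exact dvd_add (Dvd.dvd.mul_left hd _) (Dvd.intro_left _ rfl)
    obtain ⟨k, hk⟩ := hd2
    push_cast at hk
    have hp' : (0 : ℤ) < v i := by exact_mod_cast hp
    have hl' : (v i : ℤ) ≤ 2 * n := by exact_mod_cast hl
    have hx1' : (1 : ℤ) ≤ x := by exact_mod_cast hx1
    have hx2' : (x : ℤ) ≤ 2 * n := by exact_mod_cast hx2
    rcases abs_lt_two hr with h | h | h
    · exfalso
      subst h
      rw [zero_mul, sub_zero] at hk
      rcases lt_trichotomy k 0 with h' | h' | h'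
      · nlinarith
      · subst h'
        simp at hk
        omega
      · nlinarith
    · left
      subst h
      rw [one_mul] at hk
      have : k = 0 := by
        by_contra hk0
        rcases lt_or_gt_of_ne hk0 with h' | h'
        · nlinarith
        · nlinarith
      subst this
      exact ⟨i, by omega⟩
    · right
      subst h
      have : k = 1 := by
        rcases lt_trichotomy k 1 with h' | h' | h'
        · nlinarith
        · exact h'
        · nlinarith
      subst this
      exact ⟨i, by omega⟩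
  -- counting
  classical
  set N := 2 * n + 1 with hN
  set U : Finset ℕ := (Finset.range N).filter (fun x => N.Coprime x) with hU
  have hUcard : U.card = Nat.totient N := (Nat.totient_eq_card_coprime N).symm
  have hUpos : ∀ x ∈ U, 1 ≤ x ∧ x ≤ 2 * n ∧ Nat.Coprime x N := by
    intro x hx
    rw [hU, Finset.mem_filter, Finset.mem_range] at hx
    obtain ⟨hx1, hx2⟩ := hx
    refine ⟨?_, by omega, hx2.symm⟩
    by_contra h0
    have : x = 0 := by omega
    subst this
    rw [Nat.coprime_zero_right] at hx2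
    omega
  have hmemU : ∀ x, 1 ≤ x → x ≤ 2 * n → Nat.Coprime x N → x ∈ U := by
    intro x hx1 hx2 hx3
    rw [hU, Finset.mem_filter, Finset.mem_range]
    exact ⟨by omega, hx3.symm⟩
  have hrefl : ∀ x ∈ U, N - x ∈ U := by
    intro x hx
    obtain ⟨hx1, hx2, hx3⟩ := hUpos x hx
    have e1 : 1 ≤ N - x := by omega
    have e2 : N - x ≤ 2 * n := by omega
    refine hmemU _ e1 e2 ?_
    rw [Nat.coprime_comm]
    rw [Nat.coprime_comm] at hx3
    exact (Nat.coprime_self_sub_right (show x ≤ N by omega)).mpr hx3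
  set A : Finset ℕ := U.filter (fun x => ∃ i, v i = x) with hA
  set B : Finset ℕ := U.filter (fun x => ∃ i, v i = N - x) with hB
  have memA : ∀ x, x ∈ A ↔ x ∈ U ∧ ∃ i, v i = x := fun x => Finset.mem_filter
  have memB : ∀ x, x ∈ B ↔ x ∈ U ∧ ∃ i, v i = N - x := fun x => Finset.mem_filter
  have hAB : U ⊆ A ∪ B := by
    intro x hx
    obtain ⟨hx1, hx2, hx3⟩ := hUpos x hx
    rw [Finset.mem_union, memA, memB]
    rcases h4 x hx1 hx2 hx3 with h | h
    · exact Or.inl ⟨hx, h⟩
    · exact Or.inr ⟨hx, h⟩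
  have hBA : B.card ≤ A.card := by
    apply Finset.card_le_card_of_injOn (fun x => N - x)
    · intro x hx
      rw [Finset.mem_coe, memB] at hx
      rw [Finset.mem_coe, memA]
      exact ⟨hrefl x hx.1, hx.2⟩
    · intro x hx y hy hxy
      rw [Finset.mem_coe, memB] at hx hy
      have := hUpos x hx.1
      have := hUpos y hy.1
      change N - x = N - y at hxy
      omega
  have hne : (A ∩ B).Nonempty := by
    rcases h3 with h | h
    · have hnU : n ∈ U := by
        apply hmemU n hn (by omega)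
        rw [hN]
        have : Nat.Coprime n (1 + n * 2) := by
          rw [Nat.coprime_add_mul_left_right]
          exact Nat.coprime_one_right n
        convert this using 1
        omega
      refine ⟨n, ?_⟩
      rw [Finset.mem_inter, memA, memB]
      refine ⟨⟨hnU, h⟩, hnU, ?_⟩
      obtain ⟨i, hi⟩ := h2
      exact ⟨i, by omega⟩
    · have h1U : 1 ∈ U := hmemU 1 le_rfl (by omega) (Nat.coprime_one_left N)
      refine ⟨1, ?_⟩
      rw [Finset.mem_inter, memA, memB]
      refine ⟨⟨h1U, h1⟩, h1U, ?_⟩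
      obtain ⟨i, hi⟩ := h
      exact ⟨i, by omega⟩
  have hc1 := Finset.card_le_card hAB
  have hc2 := Finset.card_union_add_card_inter A B
  have hc3 := Finset.card_pos.mpr hne
  have hAc : A.card ≤ (Finset.univ.filter fun i => Nat.Coprime (v i) N).card := by
    have : A ⊆ (Finset.univ.filter fun i => Nat.Coprime (v i) N).image v := by
      intro x hx
      rw [memA] at hx
      obtain ⟨hxU, i, hi⟩ := hx
      rw [Finset.mem_image]
      refine ⟨i, ?_, hi⟩
      rw [Finset.mem_filter]
      refine ⟨Finset.mem_univ _, ?_⟩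
      rw [hi]
      exact (hUpos x hxU).2.2
    exact (Finset.card_le_card this).trans Finset.card_image_le
  have hsum : (Finset.univ.filter fun i => Nat.Coprime (v i) N).card +
      (Finset.univ.filter fun i => ¬ Nat.Coprime (v i) N).card = n := by
    rw [Finset.card_filter_add_card_filter_not]
    simp
  omega

/-- In particular the lonely runner conjecture holds for all sets of `n` speeds in `[1, 2 n]`
whenever `2 n + 1` is prime. -/
theorem prime_case (n : ℕ) (hp : (2 * n + 1).Prime) (v : Fin n → ℕ) (hv : StrictMono v)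
    (hpos : ∀ i, 0 < v i) (hle : ∀ i, v i ≤ 2 * n) :
    ∃ t : ℝ, ∀ i, ∀ k : ℤ, (1 : ℝ) / ((n : ℝ) + 1) ≤ |t * (v i : ℝ) - (k : ℝ)| := by
  apply result n v hv hpos hle
  rw [Nat.totient_prime hp]
  omega

end Pool.Agent.Results.MP_03e4a4_nt.HalfNonUnits
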